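import Mathlib

/-!
Definitions for problem MP_3020f5_gt: mm-spaces, mm-isomorphism classes, the box distance, the
observable distance, the scaling action and the quotient `Sigma`.
-/

open MeasureTheory Set

namespace Pool.Agent.Work.MP_3020f5_gt

/-- An mm-space: a complete separable metric space with a Borel probability measure. -/
structure MMSpace : Type 1 where
  carrier : Type
  [metric : MetricSpace carrier]
  [complete : CompleteSpace carrier]
  [separable : TopologicalSpace.SeparableSpace carrier]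
  [sigmaAlgebra : MeasurableSpace carrier]
  [borel : BorelSpace carrier]
  μ : Measure carrier
  [prob : IsProbabilityMeasure μ]

attribute [instance] MMSpace.metric MMSpace.complete MMSpace.separable MMSpace.sigmaAlgebra
  MMSpace.borel MMSpace.prob

/-- `X` and `Y` are mm-isomorphic: there is an isometry `f : supp μ_X → supp μ_Y` with
`f_* μ_X = μ_Y`. -/
def IsMMIso (X Y : MMSpace) : Prop :=
  ∃ f : X.μ.support → Y.μ.support, Isometry f ∧
    (X.μ.comap Subtype.val).map (fun x : X.μ.support => (f x : Y.carrier)) = Y.μ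

/-- The set of mm-isomorphism classes of mm-spaces. -/
def MMClass : Type 1 := Quot IsMMIso

/-- The mm-isomorphism class of an mm-space. -/
def cls (X : MMSpace) : MMClass := Quot.mk IsMMIso X

/-- The interval `[0,1)`. -/
abbrev Itv : Type := Set.Ico (0 : ℝ) 1

/-- Lebesgue measure on `[0,1)`. -/
noncomputable def leb : Measure Itv := (volume : Measure ℝ).comap Subtype.val

/-- A parameter of `X`: a Borel map `φ : [0,1) → X` pushing Lebesgue measure to `μ_X`. -/
def IsParameter (X : MMSpace) (φ : Itv → X.carrier) : Prop :=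
  Measurable φ ∧ leb.map φ = X.μ

/-- The box distance. -/
noncomputable def box (X Y : MMSpace) : ℝ :=
  sInf {ε : ℝ | 0 ≤ ε ∧ ∃ (φ : Itv → X.carrier) (ψ : Itv → Y.carrier) (I₀ : Set Itv),
    IsParameter X φ ∧ IsParameter Y ψ ∧ MeasurableSet I₀ ∧ 1 - ε ≤ leb.real I₀ ∧
      ∀ s ∈ I₀, ∀ t ∈ I₀, |dist (φ s) (φ t) - dist (ψ s) (ψ t)| ≤ ε}

/-- The Ky Fan metric on functions `[0,1) → ℝ`. -/
noncomputable def kyFan (f g : Itv → ℝ) : ℝ :=
  sInf {ε : ℝ | 0 ≤ ε ∧ leb.real {s | ε < |f s - g s|} ≤ ε}

/-- The Hausdorff distance, for the Ky Fan metric, between two sets of functions. -/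
noncomputable def kyFanHausdorff (A B : Set (Itv → ℝ)) : ℝ :=
  sInf {r : ℝ | 0 ≤ r ∧ (∀ f ∈ A, ∃ g ∈ B, kyFan f g ≤ r) ∧ (∀ g ∈ B, ∃ f ∈ A, kyFan f g ≤ r)}

/-- The pull-backs `f ∘ φ` of the 1-Lipschitz functions `f : X → ℝ`. -/
def lipPullback (X : MMSpace) (φ : Itv → X.carrier) : Set (Itv → ℝ) :=
  {h | ∃ f : X.carrier → ℝ, LipschitzWith 1 f ∧ h = f ∘ φ}

/-- The observable distance. -/
noncomputable def dconc (X Y : MMSpace) : ℝ :=
  sInf {r : ℝ | ∃ (φ : Itv → X.carrier) (ψ : Itv → Y.carrier), IsParameter X φ ∧ IsParameter Y ψ ∧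
    r = kyFanHausdorff (lipPullback X φ) (lipPullback Y ψ)}

/-- The topology on the set of classes given by a distance `D`: a set is open when it contains a
`D`-ball around each of its points. -/
@[reducible] def distTopology (D : MMSpace → MMSpace → ℝ) : TopologicalSpace MMClass where
  IsOpen U := ∀ X : MMSpace, cls X ∈ U → ∃ ε > 0, ∀ Y : MMSpace, D X Y < ε → cls Y ∈ U
  isOpen_univ := fun _ _ => ⟨1, one_pos, fun _ _ => trivial⟩
  isOpen_inter := fun _ _ hU hV X hX => by
    obtain ⟨a, ha, h1⟩ := hU X hX.1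
    obtain ⟨b, hb, h2⟩ := hV X hX.2
    exact ⟨min a b, lt_min ha hb, fun Y hY =>
      ⟨h1 Y (hY.trans_le (min_le_left _ _)), h2 Y (hY.trans_le (min_le_right _ _))⟩⟩
  isOpen_sUnion := fun _ hS X hX => by
    obtain ⟨U, hU, hXU⟩ := hX
    obtain ⟨a, ha, h1⟩ := hS U hU X hXU
    exact ⟨a, ha, fun Y hY => ⟨U, hU, h1 Y hY⟩⟩

/-- The metric `t · d` (with its own default uniform structure). -/
@[reducible] noncomputable def rawScaledMetric {α : Type} (m : MetricSpace α) (t : ℝ) (ht : 0 < t) :
    MetricSpace α where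
  dist x y := t * m.dist x y
  dist_self x := by simp
  dist_comm x y := by rw [m.dist_comm]
  dist_triangle x y z := by
    rw [← mul_add]
    exact mul_le_mul_of_nonneg_left (m.dist_triangle x y z) ht.le
  eq_of_dist_eq_zero h := m.eq_of_dist_eq_zero ((mul_eq_zero.1 h).resolve_left ht.ne')

theorem uniformity_rawScaledMetric {α : Type} (m : MetricSpace α) (t : ℝ) (ht : 0 < t) :
    @uniformity α m.toUniformSpace = @uniformity α (rawScaledMetric m t ht).toUniformSpace := by
  ext U
  rw [@Metric.mem_uniformity_dist α m.toPseudoMetricSpace,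
    @Metric.mem_uniformity_dist α (rawScaledMetric m t ht).toPseudoMetricSpace]
  constructor
  · rintro ⟨ε, hε, h⟩
    exact ⟨t * ε, mul_pos ht hε, fun a b hab => h (lt_of_mul_lt_mul_left hab ht.le)⟩
  · rintro ⟨ε, hε, h⟩
    refine ⟨ε / t, div_pos hε ht, fun a b hab => h ?_⟩
    change t * m.dist a b < ε
    rwa [mul_comm, ← lt_div_iff₀ ht]

/-- The scaled mm-space `tX = (X, t d_X, μ_X)`, for `t > 0`. -/
noncomputable def scale (t : ℝ) (ht : 0 < t) (X : MMSpace) : MMSpace :=
  @MMSpace.mk X.carrier
    (@MetricSpace.replaceUniformity X.carrier X.metric.toUniformSpace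
      (rawScaledMetric X.metric t ht) (uniformity_rawScaledMetric X.metric t ht))
    X.complete X.separable X.sigmaAlgebra X.borel X.μ X.prob

/-- The one-point mm-space. -/
noncomputable def onePoint : MMSpace where
  carrier := Unit
  μ := Measure.dirac ()

/-- `𝒳_*`: the classes other than that of the one-point space. -/
def MMStar : Type 1 := {x : MMClass // x ≠ cls onePoint}

/-- Two classes lie in one orbit of the scaling action: `x = [X]` and `y = [tX]`, `t > 0`. -/
def SameOrbit (x y : MMStar) : Prop :=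
  ∃ (t : ℝ) (ht : 0 < t) (X : MMSpace), x.1 = cls X ∧ y.1 = cls (scale t ht X)

/-- `Σ = 𝒳_* / ℝ_+`. -/
def Sigma : Type 1 := Quot SameOrbit

/-- The quotient topology on `Σ` of the subspace topology on `𝒳_*` of the topology of `D`. -/
@[reducible] def sigmaTopology (D : MMSpace → MMSpace → ℝ) : TopologicalSpace Sigma :=
  TopologicalSpace.coinduced (Quot.mk SameOrbit)
    (TopologicalSpace.induced (fun x : MMStar => x.1) (distTopology D))

end Pool.Agent.Work.MP_3020f5_gt
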