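import Pool.Agent.Work.MP_3020f5_gt.Defs
import Mathlib

-- merged part: Pool.Agent.Work.MP_3020f5_gt.Basic
section
/-!
Parameters, couplings, gluing, and a support-free description of mm-isomorphism.
-/

open MeasureTheory Set ProbabilityTheory

namespace Pool.Agent.Work.MP_3020f5_gt

instance (X : MMSpace) : SecondCountableTopology X.carrier :=
  UniformSpace.secondCountable_of_separable X.carrier

instance (X : MMSpace) : Nonempty X.carrier := nonempty_of_isProbabilityMeasure X.μ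

lemma itv_embedding : MeasurableEmbedding (Subtype.val : Itv → ℝ) :=
  MeasurableEmbedding.subtype_coe measurableSet_Ico

instance : IsProbabilityMeasure leb := ⟨by
  rw [leb, itv_embedding.comap_apply, image_univ, Subtype.range_coe, Real.volume_Ico]
  simp⟩

/-- The inclusion of `[0,1)` in `[0,1]`. -/
def incl (s : Itv) : unitInterval := ⟨s.1, s.2.1, s.2.2.le⟩

lemma measurable_incl : Measurable incl := Measurable.subtype_mk measurable_subtype_coe

lemma map_incl : leb.map incl = (volume : Measure unitInterval) := by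
  ext s hs
  rw [Measure.map_apply measurable_incl hs, leb, itv_embedding.comap_apply,
    unitInterval.volume_apply]
  have e : Subtype.val '' (incl ⁻¹' s) = (Subtype.val '' s) \ {1} := by
    ext x
    constructor
    · rintro ⟨y, hy, rfl⟩
      exact ⟨⟨incl y, hy, rfl⟩, ne_of_lt y.2.2⟩
    · rintro ⟨⟨y, hy, rfl⟩, h1⟩
      exact ⟨⟨y.1, y.2.1, lt_of_le_of_ne y.2.2 h1⟩, hy, rfl⟩
  rw [e, measure_sdiff_null (by simp)]

lemma exists_param {Y : Type*} [MeasurableSpace Y] [StandardBorelSpace Y] [Nonempty Y]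
    (ν : Measure Y) [IsProbabilityMeasure ν] : ∃ θ : Itv → Y, Measurable θ ∧ leb.map θ = ν := by
  obtain ⟨f, hf, h⟩ := ν.exists_measurable_map_eq
  exact ⟨f ∘ incl, hf.comp measurable_incl, by rw [← Measure.map_map hf measurable_incl, map_incl, h]⟩

lemma exists_isParameter (X : MMSpace) : ∃ φ, IsParameter X φ := exists_param X.μ

/-- Gluing of two couplings along a common marginal. -/
lemma exists_glue {X Y Z : Type*} [MeasurableSpace X] [MeasurableSpace Y] [MeasurableSpace Z]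
    [StandardBorelSpace Z] [Nonempty Z] (π₁ : Measure (X × Y)) (π₂ : Measure (Y × Z))
    [IsProbabilityMeasure π₁] [IsProbabilityMeasure π₂]
    (h : π₁.map Prod.snd = π₂.map Prod.fst) :
    ∃ ρ : Measure ((X × Y) × Z), IsProbabilityMeasure ρ ∧ ρ.map Prod.fst = π₁ ∧
      ρ.map (fun p => (p.1.2, p.2)) = π₂ := by
  refine ⟨π₁ ⊗ₘ (π₂.condKernel.prodMkLeft X), inferInstance, Measure.fst_compProd _ _, ?_⟩
  have hm : Measurable fun p : (X × Y) × Z => (p.1.2, p.2) := by fun_prop
  have e : π₂ = (π₁.map Prod.snd) ⊗ₘ π₂.condKernel := by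
    rw [h]
    exact (π₂.disintegrate π₂.condKernel).symm
  ext s hs
  rw [Measure.map_apply hm hs, Measure.compProd_apply (hm hs)]
  conv_rhs => rw [e]
  rw [Measure.compProd_apply hs, lintegral_map (Kernel.measurable_kernel_prodMk_left hs)
    measurable_snd]
  rfl

lemma real_map {Ω Y : Type*} [MeasurableSpace Ω] [MeasurableSpace Y] (P : Measure Ω) {f : Ω → Y}
    (hf : Measurable f) {s : Set Y} (hs : MeasurableSet s) : (P.map f).real s = P.real (f ⁻¹' s) := by
  simp only [Measure.real, Measure.map_apply hf hs]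

lemma one_sub_le_inter {Ω : Type*} [MeasurableSpace Ω] (P : Measure Ω) [IsProbabilityMeasure P]
    {A B : Set Ω} (hA : MeasurableSet A) (hB : MeasurableSet B) {a b : ℝ} (ha : 1 - a ≤ P.real A)
    (hb : 1 - b ≤ P.real B) : 1 - (a + b) ≤ P.real (A ∩ B) := by
  have h1 := probReal_compl_eq_one_sub (μ := P) hA
  have h2 := probReal_compl_eq_one_sub (μ := P) hB
  have h3 := probReal_compl_eq_one_sub (μ := P) (hA.inter hB)
  have h4 : P.real (A ∩ B)ᶜ ≤ P.real Aᶜ + P.real Bᶜ := by
    rw [compl_inter]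
    exact measureReal_union_le _ _
  linarith only [ha, hb, h1, h2, h3, h4]

lemma mem_support_iff_ball {X : MMSpace} {x : X.carrier} :
    x ∈ X.μ.support ↔ ∀ r, 0 < r → 0 < X.μ (Metric.ball x r) :=
  Metric.nhds_basis_ball.mem_measureSupport

/-- A measure-preserving map that is isometric on the support gives an mm-isomorphism. -/
lemma isMMIso_of_map {X Y : MMSpace} (g : X.carrier → Y.carrier) (hg : Measurable g)
    (hmap : X.μ.map g = Y.μ)
    (hiso : ∀ x ∈ X.μ.support, ∀ y ∈ X.μ.support, dist (g x) (g y) = dist x y) : IsMMIso X Y := by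
  have hsupp : ∀ x ∈ X.μ.support, g x ∈ Y.μ.support := by
    intro x hx
    rw [mem_support_iff_ball]
    intro r hr
    rw [← hmap, Measure.map_apply hg measurableSet_ball]
    refine (mem_support_iff_ball.1 hx r hr).trans_le (measure_mono_ae ?_)
    filter_upwards [X.μ.support_mem_ae] with y hy hyb
    change g y ∈ Metric.ball (g x) r
    rw [Metric.mem_ball, hiso y hy x hx]
    exact hyb
  refine ⟨fun x => ⟨g x, hsupp x x.2⟩, Isometry.of_dist_eq fun x y => hiso x x.2 y y.2, ?_⟩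
  have hS : MeasurableSet X.μ.support := Measure.isClosed_support.measurableSet
  have e : (fun x : X.μ.support => g x) = g ∘ Subtype.val := rfl
  rw [e, ← Measure.map_map hg measurable_subtype_coe, map_comap_subtype_coe hS,
    Measure.restrict_eq_self_of_ae_mem (s := X.μ.support) X.μ.support_mem_ae, hmap]

lemma IsMMIso.exists_map {X Y : MMSpace} (h : IsMMIso X Y) :
    ∃ g : X.carrier → Y.carrier, Measurable g ∧ X.μ.map g = Y.μ ∧
      ∀ x ∈ X.μ.support, ∀ y ∈ X.μ.support, dist (g x) (g y) = dist x y := by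
  classical
  obtain ⟨f, hf, hmap⟩ := h
  have hS : MeasurableSet X.μ.support := Measure.isClosed_support.measurableSet
  have hfm : Measurable fun x : X.μ.support => (f x : Y.carrier) :=
    (continuous_subtype_val.comp hf.continuous).measurable
  let g : X.carrier → Y.carrier := fun x =>
    if hx : x ∈ X.μ.support then (f ⟨x, hx⟩ : Y.carrier) else Classical.arbitrary _
  have hg : Measurable g := Measurable.dite hfm measurable_const hS
  have e : (fun x : X.μ.support => (f x : Y.carrier)) = g ∘ Subtype.val := by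
    funext x
    simp [g, x.2]
  refine ⟨g, hg, ?_, fun x hx y hy => ?_⟩
  · rw [e, ← Measure.map_map hg measurable_subtype_coe, map_comap_subtype_coe hS,
      Measure.restrict_eq_self_of_ae_mem (s := X.μ.support) X.μ.support_mem_ae] at hmap
    exact hmap
  · simp only [g, dif_pos hx, dif_pos hy]
    exact hf.dist_eq ⟨x, hx⟩ ⟨y, hy⟩

lemma mem_support_of_map {A B : Type*} [TopologicalSpace A] [TopologicalSpace B]
    [MeasurableSpace A] [MeasurableSpace B] [OpensMeasurableSpace A] [BorelSpace B]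
    {ρ : Measure A} {p : A → B} (hp : Continuous p) {a : A} (ha : a ∈ ρ.support) :
    p a ∈ (ρ.map p).support := by
  rw [Measure.mem_support_iff_forall] at ha ⊢
  intro U hU
  exact (ha _ (hp.continuousAt hU)).trans_le (Measure.le_map_apply hp.measurable.aemeasurable U)

end Pool.Agent.Work.MP_3020f5_gt
end

-- merged part: Pool.Agent.Work.MP_3020f5_gt.Box
section
/-!
The box distance: coupling description, triangle inequality, scaling and doubling estimates.
-/

open MeasureTheory Set ProbabilityTheory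

namespace Pool.Agent.Work.MP_3020f5_gt

/-- Coupling form of `box X Y ≤ ε`. -/
def BoxC (X Y : MMSpace) (ε : ℝ) : Prop :=
  ∃ π : Measure (X.carrier × Y.carrier), IsProbabilityMeasure π ∧ π.map Prod.fst = X.μ ∧
    π.map Prod.snd = Y.μ ∧ ∃ S, MeasurableSet S ∧ 1 - ε ≤ π.real S ∧
      ∀ p ∈ S, ∀ q ∈ S, |dist p.1 q.1 - dist p.2 q.2| ≤ ε

lemma boxC_of_space {X Y : MMSpace} {Ω : Type*} [MeasurableSpace Ω] (P : Measure Ω)
    [IsProbabilityMeasure P] {φ : Ω → X.carrier} {ψ : Ω → Y.carrier} (hφ : Measurable φ)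
    (hψ : Measurable ψ) (h1 : P.map φ = X.μ) (h2 : P.map ψ = Y.μ) (A : Set Ω) {ε : ℝ}
    (hA : 1 - ε ≤ P.real A)
    (hd : ∀ s ∈ A, ∀ t ∈ A, |dist (φ s) (φ t) - dist (ψ s) (ψ t)| ≤ ε) : BoxC X Y ε := by
  have hm : Measurable fun ω => (φ ω, ψ ω) := hφ.prodMk hψ
  refine ⟨P.map fun ω => (φ ω, ψ ω), Measure.isProbabilityMeasure_map hm.aemeasurable, ?_, ?_,
    closure ((fun ω => (φ ω, ψ ω)) '' A), isClosed_closure.measurableSet, ?_, ?_⟩
  · rw [Measure.map_map measurable_fst hm, ← h1]; rfl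
  · rw [Measure.map_map measurable_snd hm, ← h2]; rfl
  · rw [real_map P hm isClosed_closure.measurableSet]
    exact hA.trans (measureReal_mono fun ω hω => subset_closure ⟨ω, hω, rfl⟩)
  · intro p hp q hq
    have hT : IsClosed {z : (X.carrier × Y.carrier) × (X.carrier × Y.carrier) |
        |dist z.1.1 z.2.1 - dist z.1.2 z.2.2| ≤ ε} := isClosed_le (by fun_prop) continuous_const
    have hz : (p, q) ∈ closure (((fun ω => (φ ω, ψ ω)) '' A) ×ˢ ((fun ω => (φ ω, ψ ω)) '' A)) := by
      rw [closure_prod_eq]; exact ⟨hp, hq⟩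
    refine closure_minimal ?_ hT hz
    rintro ⟨_, _⟩ ⟨⟨s, hs, rfl⟩, ⟨t, ht, rfl⟩⟩
    exact hd s hs t ht

lemma BoxC.box_le {X Y : MMSpace} {ε : ℝ} (h : BoxC X Y ε) (hε : 0 ≤ ε) : box X Y ≤ ε := by
  obtain ⟨π, hπ, h1, h2, S, hS, hm, hd⟩ := h
  obtain ⟨θ, hθ, hθπ⟩ := exists_param π
  refine csInf_le ⟨0, fun _ h => h.1⟩ ⟨hε, fun s => (θ s).1, fun s => (θ s).2, θ ⁻¹' S,
    ⟨hθ.fst, ?_⟩, ⟨hθ.snd, ?_⟩, hθ hS, ?_, fun s hs t ht => hd _ hs _ ht⟩
  · rw [← h1, ← hθπ, Measure.map_map measurable_fst hθ]; rfl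
  · rw [← h2, ← hθπ, Measure.map_map measurable_snd hθ]; rfl
  · rwa [← real_map leb hθ hS, hθπ]

lemma box_one_mem (X Y : MMSpace) : (1 : ℝ) ∈ {ε : ℝ | 0 ≤ ε ∧ ∃ (φ : Itv → X.carrier)
    (ψ : Itv → Y.carrier) (I₀ : Set Itv),
    IsParameter X φ ∧ IsParameter Y ψ ∧ MeasurableSet I₀ ∧ 1 - ε ≤ leb.real I₀ ∧
      ∀ s ∈ I₀, ∀ t ∈ I₀, |dist (φ s) (φ t) - dist (ψ s) (ψ t)| ≤ ε} := by
  obtain ⟨φ, hφ⟩ := exists_isParameter X
  obtain ⟨ψ, hψ⟩ := exists_isParameter Y
  exact ⟨zero_le_one, φ, ψ, ∅, hφ, hψ, MeasurableSet.empty, by simp, by simp⟩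

lemma box_nonneg (X Y : MMSpace) : 0 ≤ box X Y :=
  le_csInf ⟨1, box_one_mem X Y⟩ fun _ h => h.1

lemma box_le_one (X Y : MMSpace) : box X Y ≤ 1 :=
  csInf_le ⟨0, fun _ h => h.1⟩ (box_one_mem X Y)

lemma boxC_of_lt {X Y : MMSpace} {ε : ℝ} (h : box X Y < ε) : BoxC X Y ε := by
  obtain ⟨δ, ⟨-, φ, ψ, I₀, hφ, hψ, -, hm, hd⟩, hδ⟩ := exists_lt_of_csInf_lt ⟨1, box_one_mem X Y⟩ h
  exact boxC_of_space leb hφ.1 hψ.1 hφ.2 hψ.2 I₀ (by linarith) fun s hs t ht =>
    (hd s hs t ht).trans hδ.le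

lemma BoxC.symm {X Y : MMSpace} {ε : ℝ} (h : BoxC X Y ε) : BoxC Y X ε := by
  obtain ⟨π, hπ, h1, h2, S, -, hm, hd⟩ := h
  exact boxC_of_space π measurable_snd measurable_fst h2 h1 S hm fun s hs t ht => by
    rw [abs_sub_comm]; exact hd s hs t ht

lemma BoxC.trans {X Y Z : MMSpace} {a b : ℝ} (h : BoxC X Y a) (h' : BoxC Y Z b) :
    BoxC X Z (a + b) := by
  obtain ⟨π₁, hπ₁, h1, h2, S, hS, hm, hd⟩ := h
  obtain ⟨π₂, hπ₂, h3, h4, T, hT, hm', hd'⟩ := h'
  obtain ⟨ρ, hρ, e1, e2⟩ := exists_glue π₁ π₂ (h2.trans h3.symm)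
  have hq : Measurable fun p : (X.carrier × Y.carrier) × Z.carrier => (p.1.2, p.2) := by fun_prop
  refine boxC_of_space ρ (φ := fun p => p.1.1) (ψ := fun p => p.2) (by fun_prop) (by fun_prop) ?_ ?_
    (Prod.fst ⁻¹' S ∩ (fun p => (p.1.2, p.2)) ⁻¹' T) ?_ ?_
  · rw [← h1, ← e1, Measure.map_map measurable_fst measurable_fst]; rfl
  · rw [← h4, ← e2, Measure.map_map measurable_snd hq]; rfl
  · refine one_sub_le_inter ρ (measurable_fst hS) (hq hT) ?_ ?_
    · rwa [← real_map ρ measurable_fst hS, e1]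
    · rwa [← real_map ρ hq hT, e2]
  · intro s hs t ht
    have a1 := abs_le.1 (hd _ hs.1 _ ht.1)
    have a2 := abs_le.1 (hd' _ hs.2 _ ht.2)
    rw [abs_le]
    constructor <;> linarith only [a1, a2, a1.1, a1.2, a2.1, a2.2]

lemma IsMMIso.boxC {X Y : MMSpace} (h : IsMMIso X Y) : BoxC X Y 0 := by
  obtain ⟨g, hg, hmap, hiso⟩ := h.exists_map
  refine boxC_of_space X.μ measurable_id hg Measure.map_id hmap X.μ.support ?_ ?_
  · have hS : MeasurableSet X.μ.support := Measure.isClosed_support.measurableSet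
    have h1 := probReal_compl_eq_one_sub (μ := X.μ) hS
    have h2 : X.μ.real X.μ.supportᶜ = 0 := by
      simp only [Measure.real, Measure.measure_compl_support, ENNReal.toReal_zero]
    linarith
  · intro s hs t ht
    simp [hiso s hs t ht]

lemma dist_scale (t : ℝ) (ht : 0 < t) (X : MMSpace) (x y : (scale t ht X).carrier) :
    dist x y = t * @dist X.carrier _ x y := rfl

lemma BoxC.scale {X Y : MMSpace} {ε : ℝ} (h : BoxC X Y ε) (hε : 0 ≤ ε) (t : ℝ) (ht : 0 < t) :
    BoxC (scale t ht X) (scale t ht Y) (max 1 t * ε) := by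
  obtain ⟨π, hπ, h1, h2, S, hS, hm, hd⟩ := h
  refine ⟨π, hπ, h1, h2, S, hS, ?_, fun p hp q hq => ?_⟩
  · have : ε ≤ max 1 t * ε := le_mul_of_one_le_left hε (le_max_left _ _)
    exact le_trans (by linarith) hm
  · rw [dist_scale, dist_scale, ← mul_sub, abs_mul, abs_of_pos ht]
    exact mul_le_mul (le_max_right _ _) (hd p hp q hq) (abs_nonneg _) (by positivity)

lemma exists_boxC_scale_onePoint (X : MMSpace) {ε : ℝ} (hε : 0 < ε) :
    ∃ (t : ℝ) (ht : 0 < t), BoxC (scale t ht X) onePoint ε := by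
  obtain ⟨x₀⟩ : Nonempty X.carrier := inferInstance
  have hlim := tendsto_measure_iUnion_atTop (μ := X.μ) (s := fun n : ℕ => Metric.ball x₀ n)
    (fun a b hab => Metric.ball_subset_ball (by exact_mod_cast hab))
  rw [Metric.iUnion_ball_nat, measure_univ] at hlim
  have hlim' := (ENNReal.tendsto_toReal ENNReal.one_ne_top).comp hlim
  simp only [ENNReal.toReal_one] at hlim'
  obtain ⟨n, hn⟩ := (hlim'.eventually (lt_mem_nhds (show 1 - ε < 1 by linarith))).exists
  have ht : 0 < ε / (2 * n + 1) := by positivity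
  refine ⟨ε / (2 * n + 1), ht, boxC_of_space (X := scale _ ht X) (Y := onePoint) X.μ
    (φ := id) (ψ := fun _ => ()) measurable_id measurable_const Measure.map_id ?_
    (Metric.ball x₀ n) hn.le ?_⟩
  · change Measure.map (fun _ : X.carrier => ()) X.μ = Measure.dirac ()
    rw [Measure.map_const, measure_univ, one_smul]
  · intro s hs t ht'
    change |ε / (2 * n + 1) * dist s t - dist () ()| ≤ ε
    rw [dist_self, sub_zero, abs_of_nonneg (mul_nonneg ht.le dist_nonneg)]
    have h1 : @dist X.carrier _ s t ≤ 2 * n + 1 := by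
      have := dist_triangle_right (α := X.carrier) s t x₀
      have h2 := Metric.mem_ball.1 hs
      have h3 := Metric.mem_ball.1 ht'
      linarith only [this, h2, h3]
    calc _ ≤ ε / (2 * n + 1) * (2 * n + 1) := mul_le_mul_of_nonneg_left h1 ht.le
      _ = ε := by field_simp

/-- The fair coin. -/
noncomputable def coin : Measure Bool := (PMF.uniformOfFintype Bool).toMeasure

instance : IsProbabilityMeasure coin := PMF.toMeasure.isProbabilityMeasure _

lemma coin_singleton (b : Bool) : coin {b} = 2⁻¹ := by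
  rw [coin, PMF.toMeasure_apply_singleton _ _ (measurableSet_singleton _)]
  simp

/-- The map from `X × Bool` to the two layers at heights `0` and `s`. -/
def layer (α : Type) (s : ℝ) (p : α × Bool) : WithLp 1 (α × ℝ) :=
  WithLp.toLp 1 (p.1, if p.2 then s else 0)

lemma measurable_layer (α : Type) [MeasurableSpace α] (s : ℝ) : Measurable (layer α s) := by
  refine (WithLp.measurable_toLp _ _).comp (measurable_fst.prodMk ?_)
  exact (measurable_of_countable fun b : Bool => if b then s else 0).comp measurable_snd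

lemma dist_L1 {α : Type} [MetricSpace α] (x y : WithLp 1 (α × ℝ)) :
    dist x y = dist x.fst y.fst + dist x.snd y.snd := by
  rw [WithLp.prod_dist_eq_add (by simp)]
  simp

lemma dist_layer {α : Type} [MetricSpace α] (s : ℝ) (p q : α × Bool) :
    dist (layer α s p) (layer α s q) = dist p.1 q.1 + if p.2 = q.2 then 0 else |s| := by
  rw [dist_L1]
  obtain ⟨x, b⟩ := p
  obtain ⟨y, c⟩ := q
  cases b <;> cases c <;> simp [layer]

/-- The `ℓ¹` product of `X` with the two-point space `{0, s}`. -/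
noncomputable def double (X : MMSpace) (s : ℝ) : MMSpace where
  carrier := WithLp 1 (X.carrier × ℝ)
  μ := (X.μ.prod coin).map (layer X.carrier s)
  prob := Measure.isProbabilityMeasure_map (measurable_layer _ _).aemeasurable

lemma map_layer {Ω : Type*} [MeasurableSpace Ω] (P : Measure Ω) [IsProbabilityMeasure P]
    {X : MMSpace} {φ : Ω → X.carrier} (hφ : Measurable φ) (h : P.map φ = X.μ) (s : ℝ) :
    (P.prod coin).map (fun p => layer X.carrier s (φ p.1, p.2)) = (double X s).μ := by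
  have e : (fun p : Ω × Bool => layer X.carrier s (φ p.1, p.2)) =
      layer X.carrier s ∘ Prod.map φ id := rfl
  rw [e, ← Measure.map_map (measurable_layer _ _) (hφ.prodMap measurable_id),
    ← Measure.map_prod_map _ _ hφ measurable_id, h, Measure.map_id]
  rfl

lemma real_prod_coin {Ω : Type*} [MeasurableSpace Ω] (P : Measure Ω) [IsProbabilityMeasure P]
    {S : Set Ω} (hS : MeasurableSet S) : (P.prod coin).real (Prod.fst ⁻¹' S) = P.real S := by
  rw [← real_map _ measurable_fst hS, Measure.map_fst_prod, measure_univ, one_smul]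

lemma BoxC.double {X Y : MMSpace} {ε : ℝ} (h : BoxC X Y ε) (s r : ℝ) :
    BoxC (double X s) (double Y r) (ε + |s - r|) := by
  obtain ⟨π, hπ, h1, h2, S, hS, hm, hd⟩ := h
  refine boxC_of_space (X := MP_3020f5_gt.double X s) (Y := MP_3020f5_gt.double Y r) (π.prod coin)
    (φ := fun p => layer X.carrier s (p.1.1, p.2)) (ψ := fun p => layer Y.carrier r (p.1.2, p.2))
    ((measurable_layer _ _).comp (by fun_prop)) ((measurable_layer _ _).comp (by fun_prop))
    (map_layer π measurable_fst h1 s) (map_layer π measurable_snd h2 r) (Prod.fst ⁻¹' S) ?_ ?_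
  · rw [real_prod_coin π hS]
    linarith only [hm, abs_nonneg (s - r)]
  · intro p hp q hq
    have a1 := abs_le.1 (hd _ hp _ hq)
    have a2 := abs_le.1 (abs_abs_sub_abs_le_abs_sub s r)
    have a3 := abs_nonneg (s - r)
    erw [dist_layer, dist_layer]
    rw [abs_le]
    split_ifs <;> constructor <;> linarith only [a1, a2, a1.1, a1.2, a2.1, a2.2]

end Pool.Agent.Work.MP_3020f5_gt
end

-- merged part: Pool.Agent.Work.MP_3020f5_gt.Conc
section
/-!
The observable distance: coupling description, triangle inequality, scaling and doubling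
estimates, comparison with the box distance.
-/

open MeasureTheory Set ProbabilityTheory

namespace Pool.Agent.Work.MP_3020f5_gt

/-- One half of the coupling form of `dconc X Y ≤ r`, on an arbitrary probability space. -/
def Approx {Ω α β : Type*} [MeasurableSpace Ω] [PseudoMetricSpace α] [PseudoMetricSpace β]
    (P : Measure Ω) (φ : Ω → α) (ψ : Ω → β) (r : ℝ) : Prop :=
  ∀ f : α → ℝ, LipschitzWith 1 f → ∃ g : β → ℝ, LipschitzWith 1 g ∧
    P.real {ω | r < |f (φ ω) - g (ψ ω)|} ≤ r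

/-- Coupling form of `dconc X Y ≤ r`. -/
def ConcC (X Y : MMSpace) (r : ℝ) : Prop :=
  ∃ π : Measure (X.carrier × Y.carrier), IsProbabilityMeasure π ∧ π.map Prod.fst = X.μ ∧
    π.map Prod.snd = Y.μ ∧ Approx π Prod.fst Prod.snd r ∧ Approx π Prod.snd Prod.fst r

lemma approx_map_iff {Ω Ω' α β : Type*} [MeasurableSpace Ω] [MeasurableSpace Ω']
    [PseudoMetricSpace α] [PseudoMetricSpace β] [MeasurableSpace α] [MeasurableSpace β]
    [OpensMeasurableSpace α] [OpensMeasurableSpace β] (P : Measure Ω) {θ : Ω → Ω'}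
    (hθ : Measurable θ) {φ : Ω' → α} {ψ : Ω' → β} (hφ : Measurable φ) (hψ : Measurable ψ) {r : ℝ} :
    Approx (P.map θ) φ ψ r ↔ Approx P (φ ∘ θ) (ψ ∘ θ) r := by
  refine forall₂_congr fun f hf => exists_congr fun g => and_congr_right fun hg => ?_
  have hf' := hf.continuous.measurable
  have hg' := hg.continuous.measurable
  rw [real_map P hθ (measurableSet_lt measurable_const (by fun_prop))]
  rfl

lemma concC_of_space {X Y : MMSpace} {Ω : Type*} [MeasurableSpace Ω] (P : Measure Ω)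
    [IsProbabilityMeasure P] {φ : Ω → X.carrier} {ψ : Ω → Y.carrier} (hφ : Measurable φ)
    (hψ : Measurable ψ) (h1 : P.map φ = X.μ) (h2 : P.map ψ = Y.μ) {r : ℝ}
    (ha : Approx P φ ψ r) (hb : Approx P ψ φ r) : ConcC X Y r := by
  have hm : Measurable fun ω => (φ ω, ψ ω) := hφ.prodMk hψ
  refine ⟨P.map fun ω => (φ ω, ψ ω), Measure.isProbabilityMeasure_map hm.aemeasurable, ?_, ?_,
    (approx_map_iff P hm measurable_fst measurable_snd).2 ha,
    (approx_map_iff P hm measurable_snd measurable_fst).2 hb⟩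
  · rw [Measure.map_map measurable_fst hm, ← h1]; rfl
  · rw [Measure.map_map measurable_snd hm, ← h2]; rfl

lemma kyFan_le {f g : Itv → ℝ} {r : ℝ} (hr : 0 ≤ r) (h : leb.real {s | r < |f s - g s|} ≤ r) :
    kyFan f g ≤ r := csInf_le ⟨0, fun _ h => h.1⟩ ⟨hr, h⟩

lemma kyFan_le_one (f g : Itv → ℝ) : kyFan f g ≤ 1 := kyFan_le zero_le_one measureReal_le_one

lemma real_le_of_kyFan_lt {f g : Itv → ℝ} {r : ℝ} (h : kyFan f g < r) :
    leb.real {s | r < |f s - g s|} ≤ r := by
  unfold kyFan at h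
  obtain ⟨δ, ⟨-, hδ⟩, hr⟩ := exists_lt_of_csInf_lt (by exact ⟨1, zero_le_one, measureReal_le_one⟩) h
  exact (measureReal_mono fun s (hs : r < _) => hr.trans hs).trans (hδ.trans hr.le)

lemma zero_mem_lipPullback (X : MMSpace) (φ : Itv → X.carrier) :
    ((fun _ => (0 : ℝ)) ∘ φ) ∈ lipPullback X φ :=
  ⟨fun _ => 0, (LipschitzWith.const 0).weaken zero_le_one, rfl⟩

lemma dconc_bdd (X Y : MMSpace) : ∀ r ∈ {r : ℝ | ∃ (φ : Itv → X.carrier) (ψ : Itv → Y.carrier),
    IsParameter X φ ∧ IsParameter Y ψ ∧ r = kyFanHausdorff (lipPullback X φ) (lipPullback Y ψ)},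
    0 ≤ r := by
  rintro r ⟨φ, ψ, -, -, rfl⟩
  exact Real.sInf_nonneg fun _ h => h.1

lemma dconc_nonneg (X Y : MMSpace) : 0 ≤ dconc X Y := Real.sInf_nonneg (dconc_bdd X Y)

lemma ConcC.dconc_le {X Y : MMSpace} {r : ℝ} (h : ConcC X Y r) (hr : 0 ≤ r) : dconc X Y ≤ r := by
  obtain ⟨π, hπ, h1, h2, ha, hb⟩ := h
  obtain ⟨θ, hθ, hθπ⟩ := exists_param π
  rw [← hθπ] at ha hb
  rw [approx_map_iff leb hθ measurable_fst measurable_snd] at ha
  rw [approx_map_iff leb hθ measurable_snd measurable_fst] at hb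
  refine csInf_le_of_le ⟨0, dconc_bdd X Y⟩ ⟨fun s => (θ s).1, fun s => (θ s).2,
    ⟨hθ.fst, ?_⟩, ⟨hθ.snd, ?_⟩, rfl⟩ (csInf_le ⟨0, fun _ h => h.1⟩ ⟨hr, ?_, ?_⟩)
  · rw [← h1, ← hθπ, Measure.map_map measurable_fst hθ]; rfl
  · rw [← h2, ← hθπ, Measure.map_map measurable_snd hθ]; rfl
  · rintro _ ⟨f, hf, rfl⟩
    obtain ⟨g, hg, h⟩ := ha f hf
    exact ⟨_, ⟨g, hg, rfl⟩, kyFan_le hr h⟩
  · rintro _ ⟨g, hg, rfl⟩
    obtain ⟨f, hf, h⟩ := hb g hg
    refine ⟨_, ⟨f, hf, rfl⟩, kyFan_le hr ?_⟩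
    simp only [abs_sub_comm ((f ∘ _) _)]
    exact h

lemma concC_of_lt {X Y : MMSpace} {r : ℝ} (h : dconc X Y < r) : ConcC X Y r := by
  obtain ⟨φ₀, hφ₀⟩ := exists_isParameter X
  obtain ⟨ψ₀, hψ₀⟩ := exists_isParameter Y
  unfold dconc at h
  obtain ⟨_, ⟨φ, ψ, hφ, hψ, rfl⟩, h2⟩ := exists_lt_of_csInf_lt
    (by exact ⟨_, φ₀, ψ₀, hφ₀, hψ₀, rfl⟩) h
  unfold kyFanHausdorff at h2
  obtain ⟨δ, ⟨-, ha, hb⟩, hδ⟩ := exists_lt_of_csInf_lt (by exact ⟨1, zero_le_one,
    fun f _ => ⟨_, zero_mem_lipPullback Y ψ, kyFan_le_one _ _⟩,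
    fun g _ => ⟨_, zero_mem_lipPullback X φ, kyFan_le_one _ _⟩⟩) h2
  refine concC_of_space leb hφ.1 hψ.1 hφ.2 hψ.2 (fun f hf => ?_) fun g hg => ?_
  · obtain ⟨_, ⟨g, hg, rfl⟩, h3⟩ := ha _ ⟨f, hf, rfl⟩
    exact ⟨g, hg, real_le_of_kyFan_lt (h3.trans_lt hδ)⟩
  · obtain ⟨_, ⟨f, hf, rfl⟩, h3⟩ := hb _ ⟨g, hg, rfl⟩
    refine ⟨f, hf, ?_⟩
    simp only [abs_sub_comm (g _)]
    exact real_le_of_kyFan_lt (h3.trans_lt hδ)

lemma ConcC.symm {X Y : MMSpace} {r : ℝ} (h : ConcC X Y r) : ConcC Y X r := by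
  obtain ⟨π, hπ, h1, h2, ha, hb⟩ := h
  exact concC_of_space π measurable_snd measurable_fst h2 h1 hb ha

lemma Approx.trans {Ω α β γ : Type*} [MeasurableSpace Ω] [PseudoMetricSpace α]
    [PseudoMetricSpace β] [PseudoMetricSpace γ] {P : Measure Ω} [IsProbabilityMeasure P]
    {φ : Ω → α} {ψ : Ω → β} {χ : Ω → γ} {a b : ℝ} (h : Approx P φ ψ a) (h' : Approx P ψ χ b) :
    Approx P φ χ (a + b) := by
  intro f hf
  obtain ⟨g, hg, h1⟩ := h f hf
  obtain ⟨k, hk, h2⟩ := h' g hg
  refine ⟨k, hk, le_trans ?_ (add_le_add h1 h2)⟩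
  refine le_trans (measureReal_mono ?_) (measureReal_union_le _ _)
  intro ω hω
  by_contra hc
  simp only [mem_union, mem_ofPred_eq, not_or, not_lt] at hc hω
  linarith only [hω, hc, abs_sub_le (f (φ ω)) (g (ψ ω)) (k (χ ω)), hc.1, hc.2]

lemma ConcC.trans {X Y Z : MMSpace} {a b : ℝ} (h : ConcC X Y a) (h' : ConcC Y Z b) :
    ConcC X Z (a + b) := by
  obtain ⟨π₁, hπ₁, h1, h2, ha, hb⟩ := h
  obtain ⟨π₂, hπ₂, h3, h4, ha', hb'⟩ := h'
  obtain ⟨ρ, hρ, e1, e2⟩ := exists_glue π₁ π₂ (h2.trans h3.symm)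
  have hq : Measurable fun p : (X.carrier × Y.carrier) × Z.carrier => (p.1.2, p.2) := by fun_prop
  rw [← e1] at ha hb
  rw [← e2] at ha' hb'
  rw [approx_map_iff ρ measurable_fst measurable_fst measurable_snd] at ha
  rw [approx_map_iff ρ measurable_fst measurable_snd measurable_fst] at hb
  rw [approx_map_iff ρ hq measurable_fst measurable_snd] at ha'
  rw [approx_map_iff ρ hq measurable_snd measurable_fst] at hb'
  refine concC_of_space ρ (φ := fun p => p.1.1) (ψ := fun p => p.2) (by fun_prop) (by fun_prop)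
    ?_ ?_ (ha.trans ha') (add_comm b a ▸ hb'.trans hb)
  · rw [← h1, ← e1, Measure.map_map measurable_fst measurable_fst]; rfl
  · rw [← h4, ← e2, Measure.map_map measurable_snd hq]; rfl

lemma approx_of_distortion {Ω α β : Type*} [MeasurableSpace Ω] [PseudoMetricSpace α]
    [PseudoMetricSpace β] {P : Measure Ω} [IsProbabilityMeasure P] {φ : Ω → α} {ψ : Ω → β}
    {S : Set Ω} (hS : MeasurableSet S) {ε : ℝ} (hm : 1 - ε ≤ P.real S)
    (hd : ∀ p ∈ S, ∀ q ∈ S, |dist (φ p) (φ q) - dist (ψ p) (ψ q)| ≤ ε) : Approx P φ ψ ε := by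
  intro f hf
  have hc : P.real Sᶜ ≤ ε := by rw [probReal_compl_eq_one_sub hS]; linarith
  rcases S.eq_empty_or_nonempty with rfl | ⟨p₀, hp₀⟩
  · exact ⟨fun _ => 0, (LipschitzWith.const 0).weaken zero_le_one,
      (measureReal_mono (by simp)).trans hc⟩
  have : Nonempty S := ⟨⟨p₀, hp₀⟩⟩
  have hlow : ∀ p ∈ S, ∀ (q : S) (y : β), f (φ p) - ε - dist y (ψ p) ≤ f (φ q) + dist y (ψ q) := by
    intro p hp q y
    have h1 := hf.dist_le_mul (φ p) (φ q)
    have h2 := (abs_le.1 (hd p hp q q.2)).2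
    have h3 := dist_triangle_left (ψ p) (ψ q) y
    rw [Real.dist_eq, NNReal.coe_one, one_mul] at h1
    linarith [le_abs_self (f (φ p) - f (φ q))]
  have hbdd : ∀ y : β, BddBelow (range fun q : S => f (φ q) + dist y (ψ q)) := fun y =>
    ⟨f (φ p₀) - ε - dist y (ψ p₀), by rintro _ ⟨q, rfl⟩; exact hlow p₀ hp₀ q y⟩
  refine ⟨fun y => ⨅ q : S, (f (φ q) + dist y (ψ q)), LipschitzWith.of_le_add fun y z => ?_,
    (measureReal_mono fun p hp hpS => ?_).trans hc⟩
  · rw [← sub_le_iff_le_add]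
    refine le_ciInf fun q => ?_
    have h1 := ciInf_le (hbdd y) q
    have h2 := dist_triangle y z (ψ q)
    linarith
  · have h1 := ciInf_le (hbdd (ψ p)) ⟨p, hpS⟩
    have h2 : f (φ p) - ε ≤ ⨅ q : S, (f (φ q) + dist (ψ p) (ψ q)) :=
      le_ciInf fun q => by simpa using hlow p hpS q (ψ p)
    simp only [dist_self, add_zero] at h1
    have h3 : ε < _ := hp
    rw [abs_of_nonneg (by linarith)] at h3
    linarith

lemma BoxC.concC {X Y : MMSpace} {ε : ℝ} (h : BoxC X Y ε) : ConcC X Y ε := by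
  obtain ⟨π, hπ, h1, h2, S, hS, hm, hd⟩ := h
  exact ⟨π, hπ, h1, h2, approx_of_distortion hS hm hd,
    approx_of_distortion hS hm fun p hp q hq => by rw [abs_sub_comm]; exact hd p hp q hq⟩

lemma dconc_le_box (X Y : MMSpace) : dconc X Y ≤ box X Y :=
  le_of_forall_gt_imp_ge_of_dense fun _ h =>
    (boxC_of_lt h).concC.dconc_le ((box_nonneg X Y).trans h.le)

lemma lip_iff {α : Type*} [PseudoMetricSpace α] {f : α → ℝ} :
    LipschitzWith 1 f ↔ ∀ x y, f x ≤ f y + dist x y :=
  ⟨fun h x y => by simpa using h.le_add_mul x y, LipschitzWith.of_le_add⟩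

lemma approx_scale {Ω : Type*} [MeasurableSpace Ω] {P : Measure Ω} [IsProbabilityMeasure P]
    {X Y : MMSpace} {φ : Ω → X.carrier} {ψ : Ω → Y.carrier} {r : ℝ} (hr : 0 ≤ r)
    (h : Approx P φ ψ r) (t : ℝ) (ht : 0 < t) :
    Approx (α := (scale t ht X).carrier) (β := (scale t ht Y).carrier) P φ ψ (max 1 t * r) := by
  intro f hf
  rw [lip_iff] at hf
  have hf' : ∀ x y : X.carrier, f x ≤ f y + t * dist x y := hf
  obtain ⟨g, hg, h1⟩ := h (fun x => f x / t) (lip_iff.2 fun x y => by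
    rw [div_le_iff₀ ht, add_mul, div_mul_cancel₀ _ ht.ne', mul_comm]; exact hf' x y)
  rw [lip_iff] at hg
  refine ⟨fun y => t * g y, lip_iff.2 fun x y => ?_, ?_⟩
  · have : t * g x ≤ t * g y + t * @dist Y.carrier _ x y := by
      rw [← mul_add]; exact mul_le_mul_of_nonneg_left (hg x y) ht.le
    exact this
  · refine (measureReal_mono fun ω hω => ?_).trans
      (h1.trans (le_mul_of_one_le_left hr (le_max_left _ _)))
    have h2 : max 1 t * r < |f (φ ω) - t * g (ψ ω)| := hω
    have h3 : f (φ ω) - t * g (ψ ω) = t * (f (φ ω) / t - g (ψ ω)) := by field_simp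
    rw [h3, abs_mul, abs_of_pos ht] at h2
    exact lt_of_mul_lt_mul_left
      ((mul_le_mul_of_nonneg_right (le_max_right 1 t) hr).trans_lt h2) ht.le

lemma ConcC.scale {X Y : MMSpace} {r : ℝ} (h : ConcC X Y r) (hr : 0 ≤ r) (t : ℝ) (ht : 0 < t) :
    ConcC (scale t ht X) (scale t ht Y) (max 1 t * r) := by
  obtain ⟨π, hπ, h1, h2, ha, hb⟩ := h
  exact ⟨π, hπ, h1, h2, approx_scale hr ha t ht, approx_scale hr hb t ht⟩

lemma approx_layer {Ω α β : Type} [MeasurableSpace Ω] [MetricSpace α] [MetricSpace β]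
    {P : Measure Ω} [IsProbabilityMeasure P] {φ : Ω → α} {ψ : Ω → β} {ε s r : ℝ} (hε : 0 ≤ ε)
    (hs : 0 ≤ s) (hr : 0 ≤ r) (h : Approx P φ ψ ε) :
    Approx (P.prod coin) (fun p => layer α s (φ p.1, p.2)) (fun p => layer β r (ψ p.1, p.2))
      (2 * ε + |s - r|) := by
  intro F hF
  rw [lip_iff] at hF
  have hF' : ∀ (b : Bool), LipschitzWith 1 fun x => F (layer α s (x, b)) := fun b =>
    lip_iff.2 fun x y => by simpa [dist_layer] using hF (layer α s (x, b)) (layer α s (y, b))
  obtain ⟨g₀, hg₀, h0⟩ := h _ (hF' false)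
  obtain ⟨g₁, hg₁, h1⟩ := h _ (hF' true)
  rw [lip_iff] at hg₀ hg₁
  refine ⟨fun z => max (g₀ z.fst - |z.snd|) (min (g₀ z.fst + |z.snd|) (g₁ z.fst)),
    lip_iff.2 fun z w => ?_, ?_⟩
  · have a0 := hg₀ z.fst w.fst
    have a1 := hg₁ z.fst w.fst
    have a2 := abs_le.1 (abs_abs_sub_abs_le_abs_sub z.snd w.snd)
    have a3 := abs_nonneg (z.snd - w.snd)
    rw [dist_L1, Real.dist_eq, ← max_add_add_right, ← min_add_add_right]
    exact max_le_max (by linarith [a2.1]) (min_le_min (by linarith [a2.2]) (by linarith))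
  · have hsub : {p : Ω × Bool | 2 * ε + |s - r| < |F (layer α s (φ p.1, p.2)) -
        max (g₀ (layer β r (ψ p.1, p.2)).fst - |(layer β r (ψ p.1, p.2)).snd|)
          (min (g₀ (layer β r (ψ p.1, p.2)).fst + |(layer β r (ψ p.1, p.2)).snd|)
            (g₁ (layer β r (ψ p.1, p.2)).fst))|} ⊆
        Prod.fst ⁻¹' toMeasurable P ({ω | ε < |F (layer α s (φ ω, false)) - g₀ (ψ ω)|} ∪
          {ω | ε < |F (layer α s (φ ω, true)) - g₁ (ψ ω)|}) := by
      rintro ⟨ω, b⟩ hp
      apply subset_toMeasurable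
      by_contra hc
      simp only [mem_union, mem_ofPred_eq, not_or, not_lt] at hc
      have c0 := abs_le.1 hc.1
      have c1 := abs_le.1 hc.2
      have c2 := hF (layer α s (φ ω, false)) (layer α s (φ ω, true))
      have c3 := hF (layer α s (φ ω, true)) (layer α s (φ ω, false))
      simp only [dist_layer, dist_self, zero_add, Bool.false_eq_true, Bool.true_eq_false,
        if_false, abs_of_nonneg hs] at c2 c3
      have c4 := le_abs_self (s - r)
      have c5 := neg_abs_le (s - r)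
      rw [mem_ofPred_eq] at hp
      refine absurd hp (not_lt.2 ?_)
      cases b
      · have e1 : (layer β r (ψ ω, false)).fst = ψ ω := rfl
        have e2 : (layer β r (ψ ω, false)).snd = 0 := rfl
        simp only [e1, e2, abs_zero, sub_zero, add_zero]
        rw [max_eq_left (min_le_left _ _), abs_le]
        constructor <;> linarith only [hε, c0, c4, c5, c0.1, c0.2]
      · have e1 : (layer β r (ψ ω, true)).fst = ψ ω := rfl
        have e2 : (layer β r (ψ ω, true)).snd = r := rfl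
        simp only [e1, e2, abs_of_nonneg hr]
        rw [abs_le]
        constructor
        · have : max (g₀ (ψ ω) - r) (min (g₀ (ψ ω) + r) (g₁ (ψ ω))) ≤
              F (layer α s (φ ω, true)) + (2 * ε + |s - r|) :=
            max_le (by linarith [c0.1]) ((min_le_right _ _).trans (by linarith [c1.1]))
          linarith
        · have : F (layer α s (φ ω, true)) - (2 * ε + |s - r|) ≤
              max (g₀ (ψ ω) - r) (min (g₀ (ψ ω) + r) (g₁ (ψ ω))) :=
            le_max_of_le_right (le_min (by linarith [c0.2]) (by linarith [c1.2]))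
          linarith
    refine (measureReal_mono hsub).trans ?_
    rw [real_prod_coin P (measurableSet_toMeasurable _ _), measureReal_def, measure_toMeasurable,
      ← measureReal_def]
    refine (measureReal_union_le _ _).trans ?_
    linarith only [h0, h1, abs_nonneg (s - r)]

lemma ConcC.double {X Y : MMSpace} {ε s r : ℝ} (h : ConcC X Y ε) (hε : 0 ≤ ε) (hs : 0 ≤ s)
    (hr : 0 ≤ r) : ConcC (double X s) (double Y r) (2 * ε + |s - r|) := by
  obtain ⟨π, hπ, h1, h2, ha, hb⟩ := h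
  refine concC_of_space (X := MP_3020f5_gt.double X s) (Y := MP_3020f5_gt.double Y r)
    (π.prod coin)
    (φ := fun p => layer X.carrier s (p.1.1, p.2)) (ψ := fun p => layer Y.carrier r (p.1.2, p.2))
    ((measurable_layer _ _).comp (by fun_prop)) ((measurable_layer _ _).comp (by fun_prop))
    (map_layer π measurable_fst h1 s) (map_layer π measurable_snd h2 r)
    (approx_layer hε hs hr ha) ?_
  rw [abs_sub_comm]
  exact approx_layer hε hr hs hb

lemma subsingleton_of_dconc {X : MMSpace} (h : dconc X onePoint = 0) :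
    X.μ.support.Subsingleton := by
  intro x hx y hy
  by_contra hxy
  have hd : 0 < dist x y := dist_pos.2 hxy
  have m1 : 0 < X.μ.real (Metric.ball x (dist x y / 4)) :=
    ENNReal.toReal_pos (mem_support_iff_ball.1 hx _ (by positivity)).ne' (measure_ne_top _ _)
  have m2 : 0 < X.μ.real (Metric.ball y (dist x y / 4)) :=
    ENNReal.toReal_pos (mem_support_iff_ball.1 hy _ (by positivity)).ne' (measure_ne_top _ _)
  set ε := min (dist x y / 8) (min (X.μ.real (Metric.ball x (dist x y / 4)) / 2)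
    (X.μ.real (Metric.ball y (dist x y / 4)) / 2)) with hεdef
  have hε : 0 < ε := by positivity
  have e1 : ε ≤ dist x y / 8 := min_le_left _ _
  have e2 : ε ≤ X.μ.real (Metric.ball x (dist x y / 4)) / 2 :=
    (min_le_right _ _).trans (min_le_left _ _)
  have e3 : ε ≤ X.μ.real (Metric.ball y (dist x y / 4)) / 2 :=
    (min_le_right _ _).trans (min_le_right _ _)
  obtain ⟨π, hπ, h1, -, ha, -⟩ := concC_of_lt (h.trans_lt hε)
  obtain ⟨g, -, hg⟩ := ha (dist x) (LipschitzWith.dist_right x)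
  have key : ∀ (B : Set X.carrier), MeasurableSet B → (∀ z ∈ B, ε < |dist x z - g ()|) →
      X.μ.real B ≤ ε := by
    intro B hB hz
    rw [← h1, real_map π measurable_fst hB]
    exact (measureReal_mono fun p hp => hz p.1 hp).trans hg
  rcases le_total (g ()) (dist x y / 2) with hc | hc
  · have := key _ measurableSet_ball fun z (hz : z ∈ Metric.ball y (dist x y / 4)) => by
      have h2 := dist_triangle x z y
      have h3 := Metric.mem_ball.1 hz
      exact lt_of_lt_of_le (by linarith only [hε, e1, hc, h2, h3]) (le_abs_self _)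
    linarith only [hε, e3, this]
  · have := key _ measurableSet_ball fun z (hz : z ∈ Metric.ball x (dist x y / 4)) => by
      have h3 := Metric.mem_ball'.1 hz
      exact lt_of_lt_of_le (by linarith only [hε, e1, hc, h3]) (neg_le_abs _)
    linarith only [hε, e2, this]

end Pool.Agent.Work.MP_3020f5_gt
end

-- merged part: Pool.Agent.Work.MP_3020f5_gt.Abstract
section
/-!
The topological core: a pseudo-metric space with a scaling action and a compatible operation `A`
has a contractible orbit space away from the fixed point.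
-/

open Set Topology Filter

namespace Pool.Agent.Work.MP_3020f5_gt

universe u

/-- The data and properties used by the contraction. -/
structure ScalingData (Z : Type u) [PseudoMetricSpace Z] where
  pt : Z
  σ : ℝ → Z → Z
  A : Z → ℝ → Z
  σ_mul : ∀ t s x, 0 < t → 0 < s → σ t (σ s x) = σ (t * s) x
  σ_one : ∀ x, σ 1 x = x
  σ_pt : ∀ t, 0 < t → σ t pt = pt
  σ_dist : ∀ t x y, 0 < t → dist (σ t x) (σ t y) ≤ max 1 t * dist x y
  dist_pt_le : ∀ x, dist x pt ≤ 1
  eq_pt : ∀ x, dist x pt = 0 → x = pt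
  small : ∀ x ε, 0 < ε → ∃ t, 0 < t ∧ dist (σ t x) pt < ε
  A_dist : ∀ x y s r, 0 ≤ s → 0 ≤ r → dist (A x s) (A y r) ≤ 2 * dist x y + |s - r|
  A_zero : ∀ x, A x 0 = x
  A_σ : ∀ c x s, 0 < c → 0 ≤ s → A (σ c x) (c * s) = σ c (A x s)
  A_ne : ∀ x s, 0 ≤ s → A x s = pt → x = pt
  A_one_ne : ∀ x, A x 1 ≠ pt

namespace ScalingData

variable {Z : Type u} [PseudoMetricSpace Z] (S : ScalingData Z)

/-- Distance of the scaled point to the fixed point. -/
def Ψ (x : Z) (t : ℝ) : ℝ := dist (S.σ t x) S.pt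

lemma Ψ_nonneg (x : Z) (t : ℝ) : 0 ≤ S.Ψ x t := dist_nonneg

lemma Ψ_le_one (x : Z) (t : ℝ) : S.Ψ x t ≤ 1 := S.dist_pt_le _

lemma Ψ_σ (x : Z) {t c : ℝ} (ht : 0 < t) (hc : 0 < c) : S.Ψ (S.σ c x) t = S.Ψ x (t * c) := by
  simp only [Ψ, S.σ_mul t c x ht hc]

lemma Ψ_mono (x : Z) {s t : ℝ} (hs : 0 < s) (hst : s ≤ t) : S.Ψ x s ≤ S.Ψ x t := by
  have ht : 0 < t := hs.trans_le hst
  have hq : 0 < s / t := div_pos hs ht
  have h1 : S.σ s x = S.σ (s / t) (S.σ t x) := by
    rw [S.σ_mul _ _ _ hq ht, div_mul_cancel₀ _ ht.ne']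
  have h2 := S.σ_dist (s / t) (S.σ t x) S.pt hq
  rw [S.σ_pt _ hq, ← h1, max_eq_left ((div_le_one ht).2 hst), one_mul] at h2
  exact h2

lemma Ψ_le (x y : Z) {t : ℝ} (ht : 0 < t) : S.Ψ x t ≤ S.Ψ y t + max 1 t * dist x y := by
  have := dist_triangle (S.σ t x) (S.σ t y) S.pt
  have h2 := S.σ_dist t x y ht
  simp only [Ψ]; linarith

/-- The family whose supremum is the local scale. -/
noncomputable def F (x : Z) (κ t : ℝ) : ℝ := max (S.Ψ x t - κ) 0 / t

/-- A scale function, homogeneous of degree one in `x`. -/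
noncomputable def s₀ (x : Z) (κ : ℝ) : ℝ := ⨆ t : Ioi (0 : ℝ), S.F x κ t

lemma F_nonneg (x : Z) (κ : ℝ) {t : ℝ} (ht : 0 < t) : 0 ≤ S.F x κ t :=
  div_nonneg (le_max_right _ _) ht.le

lemma F_bdd (x : Z) {κ : ℝ} (hκ : 0 < κ) :
    BddAbove (range fun t : Ioi (0 : ℝ) => S.F x κ t) := by
  obtain ⟨t₀, ht₀, h⟩ := S.small x κ hκ
  refine ⟨1 / t₀, ?_⟩
  rintro _ ⟨⟨t, ht⟩, rfl⟩
  have ht' : 0 < t := ht
  by_cases htt : t ≤ t₀
  · have h1 : S.Ψ x t ≤ S.Ψ x t₀ := S.Ψ_mono x ht' htt
    have h2 : S.Ψ x t₀ < κ := h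
    have : max (S.Ψ x t - κ) 0 = 0 := max_eq_right (by linarith)
    simp only [F, this, zero_div]
    positivity
  · push Not at htt
    have h1 : max (S.Ψ x t - κ) 0 ≤ 1 := max_le (by linarith [S.Ψ_le_one x t]) zero_le_one
    simp only [F]
    gcongr

lemma le_s₀ (x : Z) {κ t : ℝ} (hκ : 0 < κ) (ht : 0 < t) : S.F x κ t ≤ S.s₀ x κ :=
  le_ciSup (S.F_bdd x hκ) ⟨t, ht⟩

lemma s₀_nonneg (x : Z) {κ : ℝ} (hκ : 0 < κ) : 0 ≤ S.s₀ x κ :=
  (S.F_nonneg x κ one_pos).trans (S.le_s₀ x hκ one_pos)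

lemma s₀_le {x : Z} {κ b : ℝ} (h : ∀ t, 0 < t → S.F x κ t ≤ b) : S.s₀ x κ ≤ b :=
  ciSup_le fun t => h t t.2

lemma s₀_one (x : Z) : S.s₀ x 1 = 0 := by
  refine le_antisymm (S.s₀_le fun t _ => ?_) (S.s₀_nonneg x one_pos)
  have : max (S.Ψ x t - 1) 0 = 0 := max_eq_right (by linarith [S.Ψ_le_one x t])
  simp [F, this]

lemma s₀_σ_le (x : Z) {κ c : ℝ} (hκ : 0 < κ) (hc : 0 < c) :
    S.s₀ (S.σ c x) κ ≤ c * S.s₀ x κ := by
  refine S.s₀_le fun t ht => ?_
  have h1 := S.le_s₀ x hκ (mul_pos ht hc)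
  have h2 : S.F (S.σ c x) κ t = c * S.F x κ (t * c) := by
    simp only [F, S.Ψ_σ x ht hc]
    field_simp
  rw [h2]
  exact mul_le_mul_of_nonneg_left h1 hc.le

lemma s₀_σ (x : Z) {κ c : ℝ} (hκ : 0 < κ) (hc : 0 < c) :
    S.s₀ (S.σ c x) κ = c * S.s₀ x κ := by
  refine le_antisymm (S.s₀_σ_le x hκ hc) ?_
  have h := S.s₀_σ_le (S.σ c x) hκ (inv_pos.2 hc)
  rw [S.σ_mul _ _ _ (inv_pos.2 hc) hc, inv_mul_cancel₀ hc.ne', S.σ_one] at h
  calc c * S.s₀ x κ ≤ c * (c⁻¹ * S.s₀ (S.σ c x) κ) := mul_le_mul_of_nonneg_left h hc.le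
    _ = S.s₀ (S.σ c x) κ := by field_simp

lemma s₀_local {x y : Z} {κ k t₀ : ℝ} (ht₀ : 0 < t₀) (ht₁ : t₀ ≤ 1) (hk : 0 < k)
    (hx : S.Ψ x t₀ ≤ κ) :
    S.s₀ x κ ≤ S.s₀ y k + (dist x y + |κ - k|) / t₀ := by
  refine S.s₀_le fun t ht => ?_
  have hpos : 0 ≤ (dist x y + |κ - k|) / t₀ := by positivity
  by_cases htt : t ≤ t₀
  · have h1 : S.Ψ x t ≤ S.Ψ x t₀ := S.Ψ_mono x ht htt
    have : max (S.Ψ x t - κ) 0 = 0 := max_eq_right (by linarith)
    have h0 := S.s₀_nonneg y hk
    simp only [F, this, zero_div]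
    linarith only [hpos, h0]
  · push Not at htt
    have h1 := S.Ψ_le x y ht
    have h2 := S.le_s₀ y hk ht
    have h3 : max (S.Ψ x t - κ) 0 ≤ max (S.Ψ y t - k) 0 + (max 1 t * dist x y + |κ - k|) := by
      have h4 : 0 ≤ max 1 t * dist x y := by positivity
      have h5 := le_max_left (S.Ψ y t - k) 0
      have h6 := le_max_right (S.Ψ y t - k) 0
      have h7 := neg_abs_le (κ - k)
      have h8 := abs_nonneg (κ - k)
      exact max_le (by linarith) (by linarith)
    have h9 : (max 1 t * dist x y + |κ - k|) / t ≤ (dist x y + |κ - k|) / t₀ := by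
      rw [add_div, add_div]
      refine add_le_add ?_ (by gcongr)
      rw [div_le_div_iff₀ ht ht₀]
      have h10 : max 1 t * t₀ ≤ t := by
        rcases le_total 1 t with h | h
        · rw [max_eq_right h]; linarith only [ht₁, ht, mul_nonneg_of_nonpos_of_nonpos (Mathlib.Tactic.Linarith.sub_nonpos_of_le ht₁) (le_of_lt (Mathlib.Tactic.Linarith.sub_neg_of_lt ht))]
        · rw [max_eq_left h]; linarith
      nlinarith only [h10, dist_nonneg (x := x) (y := y)]
    calc S.F x κ t ≤ (max (S.Ψ y t - k) 0 + (max 1 t * dist x y + |κ - k|)) / t := by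
          simp only [F]; gcongr
      _ = S.F y k t + (max 1 t * dist x y + |κ - k|) / t := by simp only [F]; rw [add_div]
      _ ≤ _ := add_le_add h2 h9

lemma continuousAt_s₀ (x : Z) {κ : ℝ} (hκ : 0 < κ) :
    ContinuousAt (fun p : Z × ℝ => S.s₀ p.1 p.2) (x, κ) := by
  obtain ⟨t₁, ht₁, h⟩ := S.small x (κ / 3) (by positivity)
  set t₀ := min t₁ 1 with ht₀def
  have ht₀ : 0 < t₀ := lt_min ht₁ one_pos
  have ht₀1 : t₀ ≤ 1 := min_le_right _ _
  have hx : S.Ψ x t₀ < κ / 3 := (S.Ψ_mono x ht₀ (min_le_left _ _)).trans_lt h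
  rw [Metric.continuousAt_iff]
  intro ε hε
  refine ⟨min (κ / 3) (ε * t₀ / 3), by positivity, ?_⟩
  rintro ⟨y, k⟩ hp
  rw [Prod.dist_eq, max_lt_iff, lt_min_iff, lt_min_iff] at hp
  obtain ⟨⟨h1, h2⟩, h3, h4⟩ := hp
  simp only [Real.dist_eq] at h1 h2 h3 h4 ⊢
  have h5 := abs_lt.1 h3
  have hk : 0 < k := by linarith only [hκ, h5, h5.1]
  have hy : S.Ψ y t₀ ≤ k := by
    have := S.Ψ_le y x ht₀
    rw [max_eq_left ht₀1, one_mul] at this
    linarith only [hx, h1, h5, this, h5.1]
  have e1 := S.s₀_local (x := y) (y := x) ht₀ ht₀1 hκ hy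
  have e2 := S.s₀_local (x := x) (y := y) (κ := κ) ht₀ ht₀1 hk (by linarith only [hκ, hx])
  rw [dist_comm x y, abs_sub_comm κ k] at e2
  have e3 : (dist y x + |k - κ|) / t₀ < ε := by
    rw [div_lt_iff₀ ht₀]
    linarith only [h2, h4, hε, ht₀, mul_pos hε ht₀]
  rw [abs_lt]
  constructor <;> linarith only [e2, e3, e1]

/-- The scale function that tends to infinity as `κ → 0`. -/
noncomputable def s (x : Z) (κ : ℝ) : ℝ := S.s₀ x κ / κ

lemma s_nonneg (x : Z) {κ : ℝ} (hκ : 0 < κ) : 0 ≤ S.s x κ := div_nonneg (S.s₀_nonneg x hκ) hκ.le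

lemma s_σ (x : Z) {κ c : ℝ} (hκ : 0 < κ) (hc : 0 < c) : S.s (S.σ c x) κ = c * S.s x κ := by
  simp only [s, S.s₀_σ x hκ hc, mul_div_assoc]

lemma s_large {x : Z} {κ δ : ℝ} (hκ : 0 < κ) (hδ : 2 * δ ≤ dist x S.pt) (hκδ : κ ≤ δ) :
    δ / κ ≤ S.s x κ := by
  have h1 := S.le_s₀ x hκ one_pos
  have h2 : δ ≤ S.F x κ 1 := by
    simp only [F, Ψ, S.σ_one, div_one]
    exact le_max_of_le_left (by linarith)
  simp only [s]
  gcongr
  linarith

lemma σ_ne {x : Z} (hx : x ≠ S.pt) {t : ℝ} (ht : 0 < t) : S.σ t x ≠ S.pt := by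
  intro h
  apply hx
  have := S.σ_mul t⁻¹ t x (inv_pos.2 ht) ht
  rw [h, S.σ_pt _ (inv_pos.2 ht), inv_mul_cancel₀ ht.ne', S.σ_one] at this
  exact this.symm

lemma continuous_A : ContinuousOn (fun p : Z × ℝ => S.A p.1 p.2) (univ ×ˢ Ici 0) := by
  rw [Metric.continuousOn_iff]
  rintro ⟨x, r⟩ hb ε hε
  refine ⟨ε / 3, by positivity, ?_⟩
  rintro ⟨y, r'⟩ ha hp
  rw [Prod.dist_eq, max_lt_iff] at hp
  have := S.A_dist y x r' r ha.2 hb.2
  have h2 := hp.2
  rw [Real.dist_eq] at h2
  have h1 := hp.1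
  simp only at h1 h2 ⊢
  linarith only [hp, this, h2]

section contraction

variable (r : {x : Z // x ≠ S.pt} → {x : Z // x ≠ S.pt} → Prop)

/-- The base point of the contraction. -/
def base : {x : Z // x ≠ S.pt} := ⟨S.A S.pt 1, S.A_one_ne _⟩

open Classical in
/-- The contraction before passing to the orbit space. -/
noncomputable def H (x : {x : Z // x ≠ S.pt}) (κ : unitInterval) : Quot r :=
  if h : 0 < (κ : ℝ) then
    Quot.mk r ⟨S.A x.1 (S.s x.1 κ), fun e => x.2 (S.A_ne _ _ (S.s_nonneg _ h) e)⟩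
  else Quot.mk r S.base

variable {r}

lemma H_eq (hr : ∀ x y, r x y ↔ ∃ t, 0 < t ∧ y.1 = S.σ t x.1) {x y : {x : Z // x ≠ S.pt}}
    (h : r x y) (κ : unitInterval) : S.H r x κ = S.H r y κ := by
  obtain ⟨t, ht, e⟩ := (hr x y).1 h
  simp only [H]
  split_ifs with hκ
  · refine Quot.sound ((hr _ _).2 ⟨t, ht, ?_⟩)
    simp only [e, S.s_σ _ hκ ht, S.A_σ _ _ _ ht (S.s_nonneg _ hκ)]
  · rfl

lemma H_one (x : {x : Z // x ≠ S.pt}) : S.H r x 1 = Quot.mk r x := by
  have h : 0 < ((1 : unitInterval) : ℝ) := by simp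
  simp only [H, dif_pos h]
  congr 1
  apply Subtype.ext
  simp [s, S.s₀_one, S.A_zero]

lemma H_zero (x : {x : Z // x ≠ S.pt}) : S.H r x 0 = Quot.mk r S.base := by
  simp [H]

lemma H_alt (hr : ∀ x y, r x y ↔ ∃ t, 0 < t ∧ y.1 = S.σ t x.1) (x : {x : Z // x ≠ S.pt})
    {κ : unitInterval} (hκ : 0 < (κ : ℝ)) (hs : 0 < S.s x.1 κ) :
    S.H r x κ = Quot.mk r ⟨S.A (S.σ (S.s x.1 κ)⁻¹ x.1) 1, S.A_one_ne _⟩ := by
  simp only [H, dif_pos hκ]
  refine Quot.sound ((hr _ _).2 ⟨(S.s x.1 κ)⁻¹, inv_pos.2 hs, ?_⟩)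
  rw [← S.A_σ _ _ _ (inv_pos.2 hs) hs.le, inv_mul_cancel₀ hs.ne']

lemma continuous_H (hr : ∀ x y, r x y ↔ ∃ t, 0 < t ∧ y.1 = S.σ t x.1) :
    Continuous fun p : {x : Z // x ≠ S.pt} × unitInterval => S.H r p.1 p.2 := by
  rw [continuous_iff_continuousAt]
  rintro ⟨x, κ⟩
  by_cases hκ : 0 < (κ : ℝ)
  · have hU : IsOpen {p : {x : Z // x ≠ S.pt} × unitInterval | 0 < (p.2 : ℝ)} :=
      isOpen_lt continuous_const (by fun_prop)
    have hc : ContinuousOn (fun p : {x : Z // x ≠ S.pt} × unitInterval => S.H r p.1 p.2)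
        {p | 0 < (p.2 : ℝ)} := by
      rw [continuousOn_iff_continuous_domRestrict]
      have e : ({p : {x : Z // x ≠ S.pt} × unitInterval | 0 < (p.2 : ℝ)}.domRestrict
          fun p => S.H r p.1 p.2) = fun p => Quot.mk r ⟨S.A p.1.1.1 (S.s p.1.1.1 p.1.2),
            fun e => p.1.1.2 (S.A_ne _ _ (S.s_nonneg _ p.2) e)⟩ := by
        funext p
        have hp : 0 < (p.1.2 : ℝ) := p.2
        simp only [domRestrict_apply, H, dif_pos hp]
      rw [e]
      refine continuous_quot_mk.comp (Continuous.subtype_mk ?_ _)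
      have hs : Continuous fun p : {p : {x : Z // x ≠ S.pt} × unitInterval | 0 < (p.2 : ℝ)} =>
          S.s p.1.1.1 p.1.2 := by
        refine Continuous.div ?_ (by fun_prop) fun p => (ne_of_gt p.2)
        rw [continuous_iff_continuousAt]
        intro p
        exact ContinuousAt.comp (g := fun q : Z × ℝ => S.s₀ q.1 q.2)
          (f := fun p : {p : {x : Z // x ≠ S.pt} × unitInterval | 0 < (p.2 : ℝ)} =>
            (p.1.1.1, (p.1.2 : ℝ)))
          (S.continuousAt_s₀ p.1.1.1 p.2) (by fun_prop)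
      exact S.continuous_A.comp_continuous (f := fun p :
        {p : {x : Z // x ≠ S.pt} × unitInterval | 0 < (p.2 : ℝ)} => (p.1.1.1, S.s p.1.1.1 p.1.2))
        (Continuous.prodMk (by fun_prop) hs) fun p => ⟨mem_univ _, S.s_nonneg _ p.2⟩
    exact hc.continuousAt (hU.mem_nhds hκ)
  · have hκ0 : κ = 0 := Subtype.ext (le_antisymm (not_lt.1 hκ) κ.2.1)
    subst hκ0
    rw [ContinuousAt, S.H_zero]
    intro W hW
    have hW' : Quot.mk r ⁻¹' W ∈ 𝓝 S.base := continuous_quot_mk.continuousAt hW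
    obtain ⟨ε, hε, hball⟩ := Metric.mem_nhds_iff.1 hW'
    have hd : 0 < dist x.1 S.pt := lt_of_le_of_ne dist_nonneg fun e => x.2 (S.eq_pt _ e.symm)
    obtain ⟨t₁, ht₁, h⟩ := S.small x.1 (ε / 4) (by positivity)
    set t₀ := min t₁ 1 with ht₀def
    have ht₀ : 0 < t₀ := lt_min ht₁ one_pos
    have ht₀1 : t₀ ≤ 1 := min_le_right _ _
    have hx : S.Ψ x.1 t₀ < ε / 4 := (S.Ψ_mono _ ht₀ (min_le_left _ _)).trans_lt h
    set δ := dist x.1 S.pt / 3 with hδ
    have hδ0 : 0 < δ := by positivity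
    rw [mem_map, Metric.mem_nhds_iff]
    refine ⟨min (min δ (ε / 4)) (δ * t₀), by positivity, ?_⟩
    rintro ⟨y, k⟩ hp
    rw [Metric.mem_ball, Prod.dist_eq, max_lt_iff] at hp
    simp only [lt_min_iff] at hp
    obtain ⟨⟨⟨h1, h2⟩, -⟩, ⟨h3, -⟩, h4⟩ := hp
    rw [Subtype.dist_eq] at h1 h2 h3 h4
    have hk0 : 0 ≤ (k : ℝ) := k.2.1
    simp only [Icc.coe_zero, dist_zero_right, Real.norm_eq_abs, abs_of_nonneg hk0] at h3 h4
    simp only [mem_preimage]
    by_cases hk : 0 < (k : ℝ)
    · have hy : 2 * δ ≤ dist y.1 S.pt := by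
        have := dist_triangle x.1 y.1 S.pt
        rw [dist_comm x.1 y.1] at this
        linarith only [hδ, h1, this]
      have hl := S.s_large hk hy h3.le
      have hs : 0 < S.s y.1 k := (div_pos hδ0 hk).trans_le hl
      have hinv : (S.s y.1 k)⁻¹ ≤ t₀ := by
        rw [inv_le_iff_one_le_mul₀ hs]
        have : 1 ≤ t₀ * (δ / k) := by
          rw [mul_div_assoc', le_div_iff₀ hk]
          linarith only [h4]
        linarith only [this, ht₀, hl, mul_nonneg_of_nonpos_of_nonpos (le_of_lt (Mathlib.Tactic.Linarith.sub_neg_of_lt ht₀)) (Mathlib.Tactic.Linarith.sub_nonpos_of_le hl)]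
      rw [S.H_alt hr y hk hs]
      apply hball
      rw [Metric.mem_ball, Subtype.dist_eq]
      have e1 := S.A_dist (S.σ (S.s y.1 k)⁻¹ y.1) S.pt 1 1 zero_le_one zero_le_one
      have e2 : S.Ψ y.1 (S.s y.1 k)⁻¹ ≤ S.Ψ y.1 t₀ := S.Ψ_mono _ (inv_pos.2 hs) hinv
      have e3 := S.Ψ_le y.1 x.1 ht₀
      rw [max_eq_left ht₀1, one_mul] at e3
      simp only [sub_self, abs_zero, add_zero] at e1
      simp only [base]
      simp only [Ψ] at e2 e3 hx
      linarith only [hx, h2, e2, e3, e1]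
    · simp only [H, dif_neg hk]
      exact mem_of_mem_nhds hW

theorem contractible (hr : ∀ x y, r x y ↔ ∃ t, 0 < t ∧ y.1 = S.σ t x.1) :
    ContractibleSpace (Quot r) := by
  rw [contractible_iff_id_nullhomotopic]
  refine ⟨Quot.mk r S.base, ⟨ContinuousMap.Homotopy.symm ?_⟩⟩
  let G : Quot r × unitInterval → Quot r := fun p =>
    Quot.lift (fun x => S.H r x p.2) (fun _ _ h => S.H_eq hr h p.2) p.1
  have hG : Continuous G :=
    isQuotientMap_quot_mk.continuous_lift_prod_left (S.continuous_H hr)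
  refine ⟨⟨fun p => G (p.2, p.1), by fun_prop⟩, ?_, ?_⟩
  · rintro ⟨x⟩
    exact S.H_zero x
  · rintro ⟨x⟩
    exact S.H_one x

end contraction

end ScalingData

end Pool.Agent.Work.MP_3020f5_gt
end

-- merged part: Pool.Agent.Work.MP_3020f5_gt.Main
section
/-!
Assembly: `Sigma` is contractible for the box and for the concentration topology.
-/

open MeasureTheory Set ProbabilityTheory

namespace Pool.Agent.Work.MP_3020f5_gt

lemma IsMMIso.scale {X Y : MMSpace} (h : IsMMIso X Y) (t : ℝ) (ht : 0 < t) :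
    IsMMIso (scale t ht X) (scale t ht Y) := by
  obtain ⟨g, hg, hmap, hiso⟩ := h.exists_map
  refine isMMIso_of_map (X := MP_3020f5_gt.scale t ht X) (Y := MP_3020f5_gt.scale t ht Y)
    g hg hmap fun x hx y hy => ?_
  exact congrArg (t * ·) (hiso x hx y hy)

lemma iso_scale_scale (t s : ℝ) (ht : 0 < t) (hs : 0 < s) (X : MMSpace) :
    IsMMIso (scale t ht (scale s hs X)) (scale (t * s) (mul_pos ht hs) X) :=
  isMMIso_of_map (X := scale t ht (scale s hs X)) (Y := scale (t * s) (mul_pos ht hs) X) id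
    measurable_id Measure.map_id fun x _ y _ => mul_assoc t s (@dist X.carrier _ x y)

lemma iso_scale_one (X : MMSpace) : IsMMIso (scale 1 one_pos X) X :=
  isMMIso_of_map (X := scale 1 one_pos X) (Y := X) id
    measurable_id Measure.map_id fun x _ y _ => (one_mul (@dist X.carrier _ x y)).symm

lemma iso_onePoint {X : MMSpace} (h : X.μ.support.Subsingleton) : IsMMIso X onePoint := by
  refine isMMIso_of_map (Y := onePoint) (fun _ => ()) measurable_const ?_ fun x hx y hy => ?_
  · change Measure.map (fun _ : X.carrier => ()) X.μ = Measure.dirac ()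
    rw [Measure.map_const, measure_univ, one_smul]
  · rw [h hx hy]
    exact (dist_self (α := onePoint.carrier) _).trans (dist_self y).symm

lemma map_fst_double (X : MMSpace) (s : ℝ) :
    (double X s).μ.map (fun z : WithLp 1 (X.carrier × ℝ) => z.fst) = X.μ := by
  have hm : Measurable fun z : WithLp 1 (X.carrier × ℝ) => z.fst :=
    measurable_fst.comp (WithLp.measurable_ofLp _ _)
  change ((X.μ.prod coin).map (layer X.carrier s)).map _ = _
  rw [Measure.map_map hm (measurable_layer _ _)]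
  change (X.μ.prod coin).map Prod.fst = _
  rw [Measure.map_fst_prod, measure_univ, one_smul]

lemma IsMMIso.double {X Y : MMSpace} (h : IsMMIso X Y) (s : ℝ) :
    IsMMIso (double X s) (double Y s) := by
  obtain ⟨g, hg, hmap, hiso⟩ := h.exists_map
  let G : WithLp 1 (X.carrier × ℝ) → WithLp 1 (Y.carrier × ℝ) := fun z =>
    WithLp.toLp 1 (g z.fst, z.snd)
  have hG : Measurable G := (WithLp.measurable_toLp _ _).comp
    ((hg.comp (measurable_fst.comp (WithLp.measurable_ofLp _ _))).prodMk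
      (measurable_snd.comp (WithLp.measurable_ofLp _ _)))
  have hsupp : ∀ z ∈ (MP_3020f5_gt.double X s).μ.support,
      WithLp.fst (z : WithLp 1 (X.carrier × ℝ)) ∈ X.μ.support := by
    intro z hz
    rw [← map_fst_double X s]
    exact mem_support_of_map (A := WithLp 1 (X.carrier × ℝ)) (p := fun z => z.fst)
      (WithLp.continuous_fst 1 _ _) hz
  refine isMMIso_of_map (X := MP_3020f5_gt.double X s) (Y := MP_3020f5_gt.double Y s) G hG ?_
    fun z hz w hw => ?_
  · rw [← map_layer X.μ hg hmap s]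
    change ((X.μ.prod coin).map (layer X.carrier s)).map G = _
    rw [Measure.map_map hG (measurable_layer _ _)]
    rfl
  · erw [dist_L1, dist_L1]
    exact congrArg₂ _ (hiso _ (hsupp z hz) _ (hsupp w hw)) rfl

lemma iso_double_zero (X : MMSpace) : IsMMIso X (double X 0) := by
  let G : X.carrier → WithLp 1 (X.carrier × ℝ) := fun x => WithLp.toLp 1 (x, 0)
  have hG : Measurable G := (WithLp.measurable_toLp _ _).comp
    (measurable_id.prodMk measurable_const)
  refine isMMIso_of_map (Y := double X 0) G hG ?_ fun z _ w _ => ?_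
  · change _ = (X.μ.prod coin).map (layer X.carrier 0)
    have e : layer X.carrier 0 = G ∘ Prod.fst := by
      funext p
      simp [layer, G]
    rw [e, ← Measure.map_map hG measurable_fst, Measure.map_fst_prod, measure_univ, one_smul]
    rfl
  · erw [dist_L1]
    simp [G]

lemma iso_scale_double (c : ℝ) (hc : 0 < c) (X : MMSpace) (s : ℝ) :
    IsMMIso (scale c hc (double X s)) (double (scale c hc X) (c * s)) := by
  let G : WithLp 1 (X.carrier × ℝ) → WithLp 1 (X.carrier × ℝ) := fun z =>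
    WithLp.toLp 1 (z.fst, c * z.snd)
  have hG : Measurable G := (WithLp.measurable_toLp _ _).comp
    ((measurable_fst.comp (WithLp.measurable_ofLp _ _)).prodMk
      ((measurable_snd.comp (WithLp.measurable_ofLp _ _)).const_mul c))
  refine isMMIso_of_map (X := scale c hc (double X s)) (Y := double (scale c hc X) (c * s)) G hG ?_
    fun z _ w _ => ?_
  · change ((X.μ.prod coin).map (layer X.carrier s)).map G =
      (X.μ.prod coin).map (layer X.carrier (c * s))
    rw [Measure.map_map hG (measurable_layer _ _)]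
    congr 1
    funext p
    obtain ⟨x, b⟩ := p
    cases b <;> simp [layer, G]
  · rw [dist_scale]
    erw [dist_L1 (α := (scale c hc X).carrier), dist_L1 (α := X.carrier), dist_scale]
    change c * dist (WithLp.fst z) (WithLp.fst w) + |c * WithLp.snd z - c * WithLp.snd w| =
      c * (dist (WithLp.fst z) (WithLp.fst w) + |WithLp.snd z - WithLp.snd w|)
    rw [← mul_sub, abs_mul, abs_of_pos hc, mul_add]

lemma layer_mem_support {X : MMSpace} {x : X.carrier} (hx : x ∈ X.μ.support) (s : ℝ) (b : Bool) :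
    layer X.carrier s (x, b) ∈ (double X s).μ.support := by
  have hc : Continuous (layer X.carrier s) := (WithLp.prod_continuous_toLp 1 _ _).comp
    (continuous_fst.prodMk ((continuous_of_discreteTopology
      (f := fun b : Bool => if b then s else 0)).comp continuous_snd))
  refine mem_support_of_map (B := WithLp 1 (X.carrier × ℝ)) hc ?_
  rw [Measure.mem_support_iff_forall] at hx ⊢
  intro U hU
  obtain ⟨V, hV, W, hW, hVW⟩ := mem_nhds_prod_iff.1 hU
  refine lt_of_lt_of_le ?_ (measure_mono ((prod_mono subset_rfl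
    (singleton_subset_iff.2 (mem_of_mem_nhds hW))).trans hVW))
  rw [Measure.prod_prod, coin_singleton]
  exact ENNReal.mul_pos (hx V hV).ne' (by simp)

lemma subsingleton_of_double {X : MMSpace} {s : ℝ} (h : (double X s).μ.support.Subsingleton) :
    X.μ.support.Subsingleton := fun _ hx _ hy =>
  congrArg WithLp.fst (h (layer_mem_support hx s false) (layer_mem_support hy s false))

lemma not_subsingleton_double (X : MMSpace) : ¬ (double X 1).μ.support.Subsingleton := by
  intro h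
  obtain ⟨x, hx⟩ := X.μ.nonempty_support (IsProbabilityMeasure.ne_zero _)
  have := congrArg WithLp.snd (h (layer_mem_support hx 1 false) (layer_mem_support hx 1 true))
  simp [layer] at this

/-- The properties of a distance between mm-spaces that the proof uses. -/
structure GoodDist (D : MMSpace → MMSpace → ℝ) : Prop where
  nonneg : ∀ X Y, 0 ≤ D X Y
  symm_le : ∀ X Y, D Y X ≤ D X Y
  triangle : ∀ X Y Z, D X Z ≤ D X Y + D Y Z
  le_box : ∀ X Y, D X Y ≤ box X Y
  scale_le : ∀ t ht X Y, D (scale t ht X) (scale t ht Y) ≤ max 1 t * D X Y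
  double_le : ∀ X Y s r, 0 ≤ s → 0 ≤ r → D (double X s) (double Y r) ≤ 2 * D X Y + |s - r|
  point : ∀ X, D X onePoint = 0 → X.μ.support.Subsingleton

lemma le_of_forall_affine {a b c d : ℝ} (hc : 0 < c) (h : ∀ e, b < e → a ≤ c * e + d) :
    a ≤ c * b + d := by
  refine le_of_forall_pos_le_add fun ε hε => ?_
  have := h (b + ε / c) (by linarith only [hε, hc, div_pos hε hc])
  rw [mul_add, mul_div_cancel₀ _ hc.ne'] at this
  linarith

lemma goodDist_dconc : GoodDist dconc where
  nonneg := dconc_nonneg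
  symm_le X Y := le_of_forall_gt_imp_ge_of_dense fun _ h =>
    (concC_of_lt h).symm.dconc_le ((dconc_nonneg X Y).trans h.le)
  triangle X Y Z := le_of_forall_pos_le_add fun ε hε => by
    have h1 := concC_of_lt (show dconc X Y < dconc X Y + ε / 2 by linarith only [hε])
    have h2 := concC_of_lt (show dconc Y Z < dconc Y Z + ε / 2 by linarith)
    have := (h1.trans h2).dconc_le (by linarith only [hε, dconc_nonneg X Y, dconc_nonneg Y Z])
    linarith
  le_box := dconc_le_box
  scale_le t ht X Y := by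
    rw [← add_zero (max 1 t * _)]
    refine le_of_forall_affine (by positivity) fun e he => ?_
    have he0 := (dconc_nonneg X Y).trans he.le
    rw [add_zero]
    exact ((concC_of_lt he).scale he0 t ht).dconc_le (by positivity)
  double_le X Y s r hs hr := le_of_forall_affine two_pos fun e he => by
    have he0 := (dconc_nonneg X Y).trans he.le
    exact ((concC_of_lt he).double he0 hs hr).dconc_le (by positivity)
  point _ := subsingleton_of_dconc

lemma goodDist_box : GoodDist box where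
  nonneg := box_nonneg
  symm_le X Y := le_of_forall_gt_imp_ge_of_dense fun _ h =>
    (boxC_of_lt h).symm.box_le ((box_nonneg X Y).trans h.le)
  triangle X Y Z := le_of_forall_pos_le_add fun ε hε => by
    have h1 := boxC_of_lt (show box X Y < box X Y + ε / 2 by linarith only [hε])
    have h2 := boxC_of_lt (show box Y Z < box Y Z + ε / 2 by linarith)
    have := (h1.trans h2).box_le (by linarith only [hε, box_nonneg X Y, box_nonneg Y Z])
    linarith
  le_box _ _ := le_rfl
  scale_le t ht X Y := by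
    rw [← add_zero (max 1 t * _)]
    refine le_of_forall_affine (by positivity) fun e he => ?_
    have he0 := (box_nonneg X Y).trans he.le
    rw [add_zero]
    exact ((boxC_of_lt he).scale he0 t ht).box_le (by positivity)
  double_le X Y s r _ _ := le_of_forall_affine two_pos fun e he => by
    have he0 := (box_nonneg X Y).trans he.le
    have := ((boxC_of_lt he).double s r).box_le (by positivity)
    linarith
  point X h := subsingleton_of_dconc
    (le_antisymm ((dconc_le_box _ _).trans h.le) (dconc_nonneg _ _))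

namespace GoodDist

variable {D : MMSpace → MMSpace → ℝ} (hD : GoodDist D)
include hD

lemma symm (X Y : MMSpace) : D X Y = D Y X := le_antisymm (hD.symm_le _ _) (hD.symm_le _ _)

lemma iso_zero {X Y : MMSpace} (h : IsMMIso X Y) : D X Y = 0 :=
  le_antisymm ((hD.le_box _ _).trans (h.boxC.box_le le_rfl)) (hD.nonneg _ _)

lemma congr_left {X X' : MMSpace} (h : IsMMIso X X') (Y : MMSpace) : D X Y = D X' Y := by
  have h1 := hD.triangle X X' Y
  have h2 := hD.triangle X' X Y
  have h3 := hD.iso_zero h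
  have h4 := hD.symm X X'
  linarith only [h2, h3, h4, h1]

/-- The distance `D` on classes, as a pseudo-metric. -/
@[reducible] noncomputable def pseudoMetric : PseudoMetricSpace MMClass where
  dist := Quot.lift₂ D (fun a _ _ h => by rw [hD.symm, hD.congr_left h, hD.symm])
    fun _ _ b h => hD.congr_left h b
  dist_self := by
    rintro ⟨X⟩
    exact hD.iso_zero (isMMIso_of_map id measurable_id Measure.map_id fun _ _ _ _ => rfl)
  dist_comm := by rintro ⟨X⟩ ⟨Y⟩; exact hD.symm X Y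
  dist_triangle := by rintro ⟨X⟩ ⟨Y⟩ ⟨Z⟩; exact hD.triangle X Y Z

lemma topology_eq : distTopology D = hD.pseudoMetric.toUniformSpace.toTopologicalSpace := by
  ext U
  rw [@Metric.isOpen_iff _ hD.pseudoMetric]
  constructor
  · rintro h ⟨X⟩ hX
    obtain ⟨ε, hε, h1⟩ := h X hX
    refine ⟨ε, hε, ?_⟩
    rintro ⟨Y⟩ hY
    exact h1 Y ((hD.symm X Y).trans_lt hY)
  · intro h X hX
    obtain ⟨ε, hε, h1⟩ := h (cls X) hX
    exact ⟨ε, hε, fun Y hY => h1 (show D Y X < ε from (hD.symm Y X).trans_lt hY)⟩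

end GoodDist

open Classical in
/-- The scaling action on classes. -/
noncomputable def scaleCls (t : ℝ) (x : MMClass) : MMClass :=
  if ht : 0 < t then Quot.map (scale t ht) (fun _ _ h => h.scale t ht) x else x

lemma scaleCls_cls {t : ℝ} (ht : 0 < t) (X : MMSpace) :
    scaleCls t (Quot.mk _ X) = Quot.mk _ (scale t ht X) := by
  unfold scaleCls
  exact dif_pos ht

/-- Doubling on classes. -/
noncomputable def doubleCls (x : MMClass) (s : ℝ) : MMClass :=
  Quot.map (fun X => double X s) (fun _ _ h => h.double s) x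

/-- The scaling data on the set of classes. -/
noncomputable def GoodDist.data {D : MMSpace → MMSpace → ℝ} (hD : GoodDist D) :
    @ScalingData MMClass hD.pseudoMetric :=
  letI := hD.pseudoMetric
  have hpt : ∀ X : MMSpace, Quot.mk IsMMIso X = cls onePoint → X.μ.support.Subsingleton :=
    fun X h => hD.point X (by
      change dist (cls X) (cls onePoint) = 0
      rw [show cls X = cls onePoint from h, dist_self])
  { pt := cls onePoint
    σ := scaleCls
    A := doubleCls
    σ_mul := by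
      rintro t s ⟨X⟩ ht hs
      rw [scaleCls_cls hs, scaleCls_cls ht, scaleCls_cls (mul_pos ht hs)]
      exact Quot.sound (iso_scale_scale t s ht hs X)
    σ_one := by
      rintro ⟨X⟩
      rw [scaleCls_cls one_pos]
      exact Quot.sound (iso_scale_one X)
    σ_pt := fun t ht => by
      rw [cls, scaleCls_cls ht]
      exact Quot.sound (iso_onePoint fun _ _ _ _ => rfl)
    σ_dist := by
      rintro t ⟨X⟩ ⟨Y⟩ ht
      rw [scaleCls_cls ht, scaleCls_cls ht]
      exact hD.scale_le t ht X Y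
    dist_pt_le := by
      rintro ⟨X⟩
      exact (hD.le_box _ _).trans (box_le_one _ _)
    eq_pt := by
      rintro ⟨X⟩ h
      exact Quot.sound (iso_onePoint (hD.point X h))
    small := by
      rintro ⟨X⟩ ε hε
      obtain ⟨t, ht, h⟩ := exists_boxC_scale_onePoint X (half_pos hε)
      refine ⟨t, ht, ?_⟩
      rw [scaleCls_cls ht]
      exact ((hD.le_box _ _).trans (h.box_le (half_pos hε).le)).trans_lt (half_lt_self hε)
    A_dist := by
      rintro ⟨X⟩ ⟨Y⟩ s r hs hr
      exact hD.double_le X Y s r hs hr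
    A_zero := by
      rintro ⟨X⟩
      exact (Quot.sound (iso_double_zero X)).symm
    A_σ := by
      rintro c ⟨X⟩ s hc _
      rw [scaleCls_cls hc]
      exact (Quot.sound (iso_scale_double c hc X s)).symm.trans (scaleCls_cls hc _).symm
    A_ne := by
      rintro ⟨X⟩ s _ h
      exact Quot.sound (iso_onePoint (subsingleton_of_double (hpt _ h)))
    A_one_ne := by
      rintro ⟨X⟩ h
      exact not_subsingleton_double X (hpt _ h) }

theorem GoodDist.contractible {D : MMSpace → MMSpace → ℝ} (hD : GoodDist D) :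
    @ContractibleSpace Sigma (sigmaTopology D) := by
  unfold sigmaTopology
  rw [hD.topology_eq]
  let _ := hD.pseudoMetric
  refine hD.data.contractible (r := SameOrbit) fun x y => ⟨?_, ?_⟩
  · rintro ⟨t, ht, X, hx, hy⟩
    exact ⟨t, ht, hy.trans ((scaleCls_cls ht X).symm.trans (congrArg (scaleCls t) hx.symm))⟩
  · obtain ⟨⟨X⟩, hx⟩ := x
    rintro ⟨t, ht, h⟩
    exact ⟨t, ht, X, rfl, h.trans (scaleCls_cls ht X)⟩

end Pool.Agent.Work.MP_3020f5_gt
end
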